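import Pool.Agent.X133.L2.Meas
import Pool.Agent.X133.LL.Two

/-! The local law in dimension two, below the kinetic scale. -/

set_option autoImplicit false
set_option linter.unusedSectionVars false

open scoped BigOperators Topology
open MeasureTheory Filter Set

namespace Pool.Agent.X133.L2

open Pool.Agent.W788.BK
open Pool.Agent.H4R2.LO (Zd)
open Pool.Agent.W788.BK.Num
open Pool.Agent.TH794.QD
open Pool.Agent.TH794.QE
open Pool.Agent.TH794.HK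
open Pool.Agent.TH311.LL2D (Bu)
open Pool.Agent.TH794.LL2 (Po Po_int Po_im Res)
open Pool.Agent.X133.LL (ev_pow)

/-- the logarithmic factor -/
theorem ev_log (C : ℝ) (hC : 0 < C) : ∀ᶠ c in 𝓝[>] (0 : ℝ), ∃ N : ℕ,
    2 * ((N + 1) * (8 * (C + 1) * c ^ (81 / 40 : ℝ)) + 2 * (1 / 2 : ℝ) ^ N) ≤
      c ^ (83 / 41 + 1 / 2400 : ℝ) := by
  have h1 : Tendsto (fun c : ℝ => c ^ (-(1 / 10000) : ℝ)) (𝓝[>] 0) atTop :=
    tendsto_rpow_neg_nhdsGT_zero (by norm_num)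
  have h2 : Tendsto (fun x : ℝ => x ^ (40000 : ℝ) * Real.exp (-(Real.log 2) * x)) atTop (𝓝 0) :=
    tendsto_rpow_mul_exp_neg_mul_atTop_nhds_zero _ _ (Real.log_pos (by norm_num))
  have h3 : ∀ᶠ x : ℝ in atTop, x ^ (40000 : ℝ) * Real.exp (-(Real.log 2) * x) ≤ 1 :=
    (h2.eventually_lt_const one_pos).mono fun x hx => hx.le
  have h4 := h1.eventually h3
  have h5 : ∀ᶠ c in 𝓝[>] (0 : ℝ), c ∈ Set.Ioc (0 : ℝ) 1 := Ioc_mem_nhdsGT one_pos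
  filter_upwards [h4, h5, ev_pow (48 * (C + 1) + 4) 1 (1 / 20000) one_pos (by norm_num)]
    with c k1 k2 k3
  obtain ⟨hc, hc1⟩ := k2
  obtain ⟨x, hx⟩ : ∃ x, x = c ^ (-(1 / 10000) : ℝ) := ⟨_, rfl⟩
  rw [← hx] at k1
  have hx1 : 1 ≤ x := by
    rw [hx]
    exact Real.one_le_rpow_of_pos_of_le_one_of_nonpos hc hc1 (by norm_num)
  have hx0 : 0 < x := by linarith
  refine ⟨⌈x⌉₊, ?_⟩
  have hN1 : x ≤ ⌈x⌉₊ := Nat.le_ceil x
  have hN2 : (⌈x⌉₊ : ℝ) ≤ x + 1 := (Nat.ceil_lt_add_one hx0.le).le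
  have e1 : (1 / 2 : ℝ) ^ (⌈x⌉₊) ≤ c ^ (4 : ℝ) := by
    have e2 : (1 / 2 : ℝ) ^ (⌈x⌉₊) = Real.exp (-(Real.log 2) * ⌈x⌉₊) := by
      rw [mul_comm, Real.exp_nat_mul, Real.exp_neg, Real.exp_log (by norm_num)]
      norm_num
    have e3 : Real.exp (-(Real.log 2) * ⌈x⌉₊) ≤ Real.exp (-(Real.log 2) * x) := by
      apply Real.exp_le_exp.2
      have := Real.log_pos (show (1 : ℝ) < 2 by norm_num)
      nlinarith
    have e4 : x ^ (40000 : ℝ) * c ^ (4 : ℝ) = 1 := by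
      rw [hx, ← Real.rpow_mul hc.le, ← Real.rpow_add hc]
      norm_num
    rw [e2]
    refine e3.trans ?_
    have e5 : 0 < x ^ (40000 : ℝ) := by positivity
    have e6 : x ^ (40000 : ℝ) * Real.exp (-(Real.log 2) * x) ≤ x ^ (40000 : ℝ) * c ^ (4 : ℝ) := by
      rw [e4]
      exact k1
    exact le_of_mul_le_mul_left e6 e5
  have e2 : (⌈x⌉₊ : ℝ) + 1 ≤ 3 * x := by linarith
  have e3 : c ^ (4 : ℝ) ≤ c ^ (83 / 41 + 1 / 2400 + 1 / 20000 : ℝ) :=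
    Real.rpow_le_rpow_of_exponent_ge hc hc1 (by norm_num)
  have e4 : x * c ^ (81 / 40 : ℝ) ≤ c ^ (83 / 41 + 1 / 2400 + 1 / 20000 : ℝ) := by
    rw [hx, ← Real.rpow_add hc]
    exact Real.rpow_le_rpow_of_exponent_ge hc hc1 (by norm_num)
  have e5 : c ^ (83 / 41 + 1 / 2400 + 1 / 20000 : ℝ) =
      c ^ (83 / 41 + 1 / 2400 : ℝ) * c ^ (1 / 20000 : ℝ) := by
    rw [← Real.rpow_add hc]
  obtain ⟨Y, hY⟩ : ∃ Y, Y = c ^ (83 / 41 + 1 / 2400 + 1 / 20000 : ℝ) := ⟨_, rfl⟩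
  rw [← hY] at e3 e4 e5
  have hY0 : 0 ≤ Y := by rw [hY]; positivity
  have e0 : 0 ≤ c ^ (81 / 40 : ℝ) := by positivity
  calc 2 * (((⌈x⌉₊ : ℝ) + 1) * (8 * (C + 1) * c ^ (81 / 40 : ℝ)) + 2 * (1 / 2 : ℝ) ^ (⌈x⌉₊)) ≤
        2 * ((3 * x) * (8 * (C + 1) * c ^ (81 / 40 : ℝ)) + 2 * c ^ (4 : ℝ)) := by gcongr
    _ = 2 * (24 * (C + 1) * (x * c ^ (81 / 40 : ℝ)) + 2 * c ^ (4 : ℝ)) := by ring
    _ ≤ 2 * (24 * (C + 1) * Y + 2 * Y) := by gcongr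
    _ = (48 * (C + 1) + 4) * Y := by ring
    _ = c ^ (83 / 41 + 1 / 2400 : ℝ) * ((48 * (C + 1) + 4) * c ^ (1 / 20000 : ℝ)) := by
        rw [e5]
        ring
    _ ≤ c ^ (83 / 41 + 1 / 2400 : ℝ) * 1 := by gcongr
    _ = _ := mul_one _

/-- the spectral measure of a site has mass at most one -/
theorem mass_le {d : ℕ} {V : Zd d → ℝ} {a : Zd d} {m : Measure ℝ} [IsFiniteMeasure m]
    (h : Res d V a m) : m.real Set.univ ≤ 1 := by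
  -- `t Po m 0 t ≤ 1` and `t Po m 0 t → m(ℝ)` as `t → ∞`
  have h1 : ∀ t : ℝ, 0 < t → t * Po m 0 t ≤ 1 := by
    intro t ht
    obtain ⟨u, hu, heq, hint⟩ := h ((((0 : ℝ) : ℝ) : ℂ) + (t : ℂ) * Complex.I) (by simp [ht.ne'])
    have hRs : Rs d V a 0 t u := ⟨hu, fun x => by
      rw [heq x, Pi.single_apply]⟩
    have h2 := Po_im m 0 t ht
    rw [hint, tsum_eq_single a (fun x hx => by rw [Pi.single_eq_of_ne hx]; simp)] at h2
    simp only [Pi.single_eq_same, map_one, one_mul] at h2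
    have h3 := ward hRs
    have h4 : ‖u a‖ ^ 2 ≤ ∑' x, ‖u x‖ ^ 2 := hu.le_tsum a fun x _ => sq_nonneg _
    have h5 : (u a).im ≤ ‖u a‖ := (le_abs_self _).trans (Complex.abs_im_le_norm _)
    have h6 : 0 ≤ ‖u a‖ := norm_nonneg _
    have h7 : t * ‖u a‖ ^ 2 ≤ ‖u a‖ := by
      have := mul_le_mul_of_nonneg_left h4 ht.le
      linarith
    rw [← h2]
    rcases h6.eq_or_lt with h8 | h8
    · have : (u a).im ≤ 0 := by rw [← h8] at h5; exact h5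
      nlinarith
    · have h9 : t * ‖u a‖ ≤ 1 := by
        have h10 : (t * ‖u a‖) * ‖u a‖ ≤ 1 * ‖u a‖ := by nlinarith
        exact le_of_mul_le_mul_right h10 h8
      nlinarith
  have h2 : Tendsto (fun n : ℕ => ((n : ℝ) + 1) * Po m 0 ((n : ℝ) + 1)) atTop
      (𝓝 (∫ _x : ℝ, (1 : ℝ) ∂m)) := by
    have e1 : ∀ n : ℕ, ((n : ℝ) + 1) * Po m 0 ((n : ℝ) + 1) =
        ∫ x : ℝ, ((n : ℝ) + 1) * (((n : ℝ) + 1) / ((x - 0) ^ 2 + ((n : ℝ) + 1) ^ 2)) ∂m := by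
      intro n
      unfold Po
      rw [integral_const_mul]
    simp_rw [e1]
    apply tendsto_integral_of_dominated_convergence (fun _ => (1 : ℝ))
    · intro n
      exact (by fun_prop : Measurable fun x : ℝ => ((n : ℝ) + 1) *
        (((n : ℝ) + 1) / ((x - 0) ^ 2 + ((n : ℝ) + 1) ^ 2))).aestronglyMeasurable
    · exact integrable_const _
    · intro n
      refine Filter.Eventually.of_forall fun x => ?_
      have hn : (0 : ℝ) < (n : ℝ) + 1 := by positivity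
      rw [Real.norm_of_nonneg (by positivity), mul_div_assoc', div_le_one (by positivity)]
      nlinarith [sq_nonneg (x - 0)]
    · refine Filter.Eventually.of_forall fun x => ?_
      have k1 : Tendsto (fun n : ℕ => 1 - x ^ 2 / ((x - 0) ^ 2 + ((n : ℝ) + 1) ^ 2)) atTop
          (𝓝 (1 - 0)) := by
        apply Tendsto.const_sub
        apply Tendsto.div_atTop tendsto_const_nhds
        apply tendsto_atTop_add_const_left
        apply Tendsto.comp (tendsto_pow_atTop two_ne_zero)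
        exact tendsto_atTop_add_const_right _ _ tendsto_natCast_atTop_atTop
      simp only [sub_zero] at k1 ⊢
      refine k1.congr fun n => ?_
      have hn : (0 : ℝ) < (n : ℝ) + 1 := by positivity
      have hne : x ^ 2 + ((n : ℝ) + 1) ^ 2 ≠ 0 := by positivity
      field_simp
      ring
  have h3 := le_of_tendsto' h2 fun n => h1 _ (by positivity)
  rw [integral_const, smul_eq_mul, mul_one] at h3
  exact h3

/-- **the local law in dimension two** -/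
theorem law2 (hES : S_ES) (hTH : S_THIRD) (hFL : S_FLUCT) (hIN : S_INV)
    (hSU : S_SUP) (hQB : S_QB) (hLO : S_LOW) (hAD : S_ADM) (hFA : S_FAC) (hO : S_OSC) :
    ∃ γ0 : ℝ → ℂ, ∀ κ : ℝ, 0 < κ → κ ≤ 1 →
    (∀ E : ℝ, κ ≤ |E| → |E| ≤ 4 - κ →
      Tendsto (fun t : ℝ => GF (F0 2) ((E : ℂ) + (t : ℂ) * Complex.I)) (𝓝[>] 0) (𝓝 (γ0 E))) ∧
    (∃ m : ℝ, 0 < m ∧ ∀ E : ℝ, κ ≤ |E| → |E| ≤ 4 - κ → m ≤ (γ0 E).im) ∧
    (∃ C : ℝ, 0 < C ∧ ∀ E E' : ℝ, κ ≤ |E| → |E| ≤ 4 - κ → κ ≤ |E'| → |E'| ≤ 4 - κ →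
      ‖γ0 E‖ ≤ C ∧ ‖γ0 E - γ0 E'‖ ≤ C * |E - E'| ^ (1 / 8 : ℝ)) ∧
    ∀ b v : ℝ, 0 < b → 0 < v →
    ∃ lam0 : ℝ, 0 < lam0 ∧ ∀ lam : ℝ, 0 < lam → lam ≤ lam0 →
    ∀ (μ : Measure ℝ), IsProbabilityMeasure μ → (∀ᵐ s ∂μ, |s| ≤ b) →
    ∀ Mn V : ℝ, ∫ s, s ∂μ = Mn → ∫ s, (s - Mn) ^ 2 ∂μ = V → v ≤ V →
      ∃ G : Set (Zd 2 → ℝ), MeasurableSet G ∧
        1 - Real.exp (-lam ^ (-(1 / 101) : ℝ)) ≤
          (Measure.infinitePi fun _ : Zd 2 => μ).real G ∧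
        ∀ ω ∈ G, ∀ a : Zd 2, ‖a‖ ≤ Real.exp (lam ^ (-(1 / 101) : ℝ)) →
          ∀ m : Measure ℝ, IsFiniteMeasure m → Res 2 (fun x => 2 * ((2 : ℕ) : ℝ) + lam * ω x) a m →
          ∀ e : ℝ, κ ≤ |4 + lam * Mn - e| → |4 + lam * Mn - e| ≤ 4 - κ →
          ∀ s : ℝ, lam ^ (83 / 41 : ℝ) ≤ s → s ≤ κ / 8 →
            |m.real (Set.Icc (e - s) (e + s)) -
              Real.pi⁻¹ * ∫ E in (e - s)..(e + s), (γ0 (4 + lam * Mn - E)).im| ≤
              lam ^ (1 / 2500 : ℝ) * s := by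
  obtain ⟨γ0, γ1, hall⟩ := engK_all hES hTH hFL hIN hSU hQB hLO hAD hFA hO 2 le_rfl
  have hγ : ∀ κ : ℝ, 0 < κ → κ ≤ 1 → ∀ E, κ ≤ |E| → |E| ≤ 4 - κ → γ0 E = bvl (F0 2) E := by
    intro κ hκ hκ1 E h1 h2
    exact tendsto_nhds_unique ((hall κ hκ hκ1).1 E (Or.inl ⟨rfl, h1, h2⟩)).1
      ((holS0 κ hκ hκ1).bv E ⟨h1, h2⟩)
  have hcon : ∀ κ : ℝ, 0 < κ → κ ≤ 1 → ∃ C : ℝ, 0 < C ∧ ∀ E E' : ℝ, κ ≤ |E| → |E| ≤ 4 - κ →
      κ ≤ |E'| → |E'| ≤ 4 - κ →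
      ‖γ0 E‖ ≤ C ∧ ‖γ0 E - γ0 E'‖ ≤ C * |E - E'| ^ (1 / 8 : ℝ) := by
    intro κ hκ hκ1
    have hCH := Pool.Agent.TH311.LL2D.CH_ge κ
    refine ⟨1 + 2 * Pool.Agent.TH311.LL2D.CH κ, by linarith, fun E E' h1 h2 h3 h4 => ?_⟩
    rw [hγ κ hκ hκ1 E h1 h2, hγ κ hκ hκ1 E' h3 h4]
    refine ⟨Pool.Agent.X133.LL.bvl_le κ hκ hκ1 E ⟨h1, h2⟩, ?_⟩
    refine ((holS0 κ hκ hκ1).lip E E' ⟨h1, h2⟩ ⟨h3, h4⟩).trans ?_
    apply mul_le_mul_of_nonneg_right _ (by positivity)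
    linarith
  refine ⟨γ0, fun κ hκ hκ1 => ⟨fun E h1 h2 =>
    ((hall κ hκ hκ1).1 E (Or.inl ⟨rfl, h1, h2⟩)).1, ?_, hcon κ hκ hκ1, ?_⟩⟩
  · obtain ⟨hA, ⟨m, hm, hmE⟩, -⟩ := hall κ hκ hκ1
    refine ⟨m, hm, fun E h1 h2 => ?_⟩
    have h3 : RegE 2 κ E := Or.inl ⟨rfl, h1, h2⟩
    have h4 := hmE E h3 (by push_cast; linarith)
    exact h4.trans (hA E h3).2.2.2
  intro b v hb hv
  -- the smaller parameter
  obtain ⟨ka, hka⟩ : ∃ ka, ka = κ / 2 := ⟨_, rfl⟩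
  have hka0 : 0 < ka := by rw [hka]; positivity
  have hka1 : ka ≤ 1 := by rw [hka]; linarith
  obtain ⟨hA, ⟨m, hm, hmE⟩, hEng⟩ := hall ka hka0 hka1
  obtain ⟨C, hC, hCE⟩ := hcon ka hka0 hka1
  obtain ⟨cf, hcf, hG⟩ := finL 2 (fun E => RegE 2 ka E ∧ |E| ≤ 2 * ((2 : ℕ) : ℝ) - ka) γ0 γ1 b v
    0 hb hv le_rfl (by
      have := hEng (2 * b) v (2 * 0) (by positivity) hv (by norm_num)
      exact this) (fun E hE => by
      obtain ⟨-, -, h5, h6⟩ := hA E hE.1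
      have h7 := hmE E hE.1 hE.2
      exact ⟨by linarith, h5, h6⟩)
  have hev : ∀ᶠ c in 𝓝[>] (0 : ℝ),
      (∃ N : ℕ, 2 * ((N + 1) * (8 * (C + 1) * c ^ (81 / 40 : ℝ)) + 2 * (1 / 2 : ℝ) ^ N) ≤
        c ^ (83 / 41 + 1 / 2400 : ℝ)) ∧ (1 * c ^ (1 / 60000 : ℝ) ≤ 1 / 5) ∧
      (1 * c ^ (81 / 40 : ℝ) ≤ κ / 16) ∧ (64 / κ ^ 2 * c ^ (1 : ℝ) ≤ 1) ∧
      (1 * c ^ (1 : ℝ) ≤ min 1 cf) := by
    filter_upwards [ev_log C hC, ev_pow 1 (1 / 5) (1 / 60000) (by norm_num) (by norm_num),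
      ev_pow 1 (κ / 16) (81 / 40) (by positivity) (by norm_num),
      ev_pow (64 / κ ^ 2) 1 1 one_pos one_pos,
      ev_pow 1 (min 1 cf) 1 (by positivity) one_pos] with c h1 h2 h3 h4 h5
    exact ⟨h1, h2, h3, h4, h5⟩
  obtain ⟨lam0, hlam0, hev2⟩ := mem_nhdsGT_iff_exists_Ioc_subset.1 hev
  refine ⟨lam0, hlam0, fun c hc hcl μ hμ hμb Mn V hMn hV hvV => ?_⟩
  obtain ⟨⟨N, n1⟩, n2, n3, n4, n5⟩ := hev2 ⟨hc, hcl⟩
  rw [one_mul] at n2 n3 n5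
  rw [Real.rpow_one] at n4 n5
  have hc1 : c ≤ 1 := n5.trans (min_le_left _ _)
  have hccf : c ≤ cf := n5.trans (min_le_right _ _)
  obtain ⟨G, hGm, hGP, hGω⟩ := hG c hc hccf μ hμ hμb Mn V hMn hV hvV
  refine ⟨G, hGm, hGP, fun ω hω a ha m hmf hres e he1 he2 s hs1 hs2 => ?_⟩
  obtain ⟨-, hprof⟩ := hGω ω hω
  obtain ⟨t, ht⟩ : ∃ t, t = c ^ (81 / 40 : ℝ) := ⟨_, rfl⟩
  have ht0 : 0 < t := by rw [ht]; positivity
  rw [← ht] at n1 n3
  have hs0 : 0 < s := lt_of_lt_of_le (by positivity) hs1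
  have hreg : ∀ E : ℝ, |E - e| ≤ 3 * (κ / 8) → ka ≤ |4 + c * Mn - E| ∧
      |4 + c * Mn - E| ≤ 4 - ka := by
    intro E hE
    have h1 : |4 + c * Mn - e| ≤ |4 + c * Mn - E| + |E - e| := by
      have := abs_add_le (4 + c * Mn - E) (E - e)
      rwa [sub_add_sub_cancel] at this
    have h2 : |4 + c * Mn - E| ≤ |4 + c * Mn - e| + |E - e| := by
      have := abs_add_le (4 + c * Mn - e) (e - E)
      rw [sub_add_sub_cancel, abs_sub_comm e E] at this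
      exact this
    rw [hka]
    constructor <;> linarith
  have hpo : ∀ E : ℝ, |E - e| ≤ 3 * (κ / 8) →
      |Po m E t - (γ0 (4 + c * Mn - E)).im| ≤ c ^ (1 / 200 : ℝ) := by
    intro E hE
    obtain ⟨r1, r2⟩ := hreg E hE
    obtain ⟨u, hu, heq, hint⟩ := hres ((E : ℂ) + (t : ℂ) * Complex.I) (by simp [ht0.ne'])
    have hRs : Rs 2 (fun x => 2 * ((2 : ℕ) : ℝ) + c * ω x) a E t u := ⟨hu, fun x => by
      rw [heq x, Pi.single_apply]⟩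
    have h2 := Po_im m E t ht0
    rw [hint, tsum_eq_single a (fun x hx => by rw [Pi.single_eq_of_ne hx]; simp)] at h2
    simp only [Pi.single_eq_same, map_one, one_mul] at h2
    have h3 := ward hRs
    have e4 : 2 * ((2 : ℕ) : ℝ) + c * Mn - E = 4 + c * Mn - E := by push_cast; ring
    have h4 := hprof a ha E (by
      rw [e4]
      exact ⟨Or.inl ⟨rfl, r1, r2⟩, by push_cast; linarith⟩) t ht.ge (by
        rw [ht]
        exact Real.rpow_le_rpow_of_exponent_ge hc hc1 (by norm_num)) u hRs 0 (by simp)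
    rw [e4] at h4
    have h5 : ∀ x, ph (0 : Fin 2 → ℝ) (x - a) = 1 := by
      intro x
      unfold ph
      simp
    have h6 : Tg γ0 γ1 t (c ^ 2 * V) (4 + c * Mn - E) (0 : Fin 2 → ℝ) =
        (γ0 (4 + c * Mn - E)).im := by
      unfold Tg
      simp
    simp only [h5, one_mul] at h4
    rw [h6, ← Complex.ofReal_tsum, ← Complex.ofReal_mul, ← Complex.ofReal_sub, Complex.norm_real,
      Real.norm_eq_abs, h3, h2] at h4
    exact h4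
  have hgc : ContinuousOn (fun E : ℝ => (γ0 (4 + c * Mn - E)).im)
      (Set.Icc (e - 3 * (κ / 8)) (e + 3 * (κ / 8))) := by
    rw [Metric.continuousOn_iff]
    intro E hE ε hε
    obtain ⟨δ, hδ⟩ : ∃ δ, δ = (ε / (C + 1)) ^ (8 : ℝ) := ⟨_, rfl⟩
    have hδ0 : 0 < δ := by rw [hδ]; positivity
    refine ⟨δ, hδ0, fun E' hE' hd => ?_⟩
    rw [Real.dist_eq] at hd ⊢
    have k1 : |E - e| ≤ 3 * (κ / 8) := by
      rw [abs_le]
      constructor <;> linarith [hE.1, hE.2]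
    have k2 : |E' - e| ≤ 3 * (κ / 8) := by
      rw [abs_le]
      constructor <;> linarith [hE'.1, hE'.2]
    obtain ⟨r1, r2⟩ := hreg E k1
    obtain ⟨r3, r4⟩ := hreg E' k2
    have k3 := (hCE _ _ r3 r4 r1 r2).2
    have k4 : |4 + c * Mn - E' - (4 + c * Mn - E)| = |E' - E| := by
      rw [sub_sub_sub_cancel_left, abs_sub_comm]
    rw [k4] at k3
    have k5 : |(γ0 (4 + c * Mn - E')).im - (γ0 (4 + c * Mn - E)).im| ≤
        ‖γ0 (4 + c * Mn - E') - γ0 (4 + c * Mn - E)‖ := by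
      rw [← Complex.sub_im]
      exact Complex.abs_im_le_norm _
    have k6 : |E' - E| ^ (1 / 8 : ℝ) ≤ ε / (C + 1) := by
      calc |E' - E| ^ (1 / 8 : ℝ) ≤ δ ^ (1 / 8 : ℝ) :=
            Real.rpow_le_rpow (abs_nonneg _) hd.le (by norm_num)
        _ = ε / (C + 1) := by
            rw [hδ, ← Real.rpow_mul (by positivity)]
            norm_num
    have k7 : C * (ε / (C + 1)) < ε := by
      rw [mul_div_assoc', div_lt_iff₀ (by positivity)]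
      nlinarith
    calc _ ≤ _ := k5
      _ ≤ C * |E' - E| ^ (1 / 8 : ℝ) := k3
      _ ≤ C * (ε / (C + 1)) := by gcongr
      _ < ε := k7
  have hm1 : m.real Set.univ ≤ 1 := mass_le hres
  have herr1 : c ^ (1 / 200 : ℝ) ≤ 1 := Real.rpow_le_one hc.le hc1 (by norm_num)
  have hfin := dens_loc m hm1 t C (c ^ (1 / 200 : ℝ)) e (κ / 8) (e - s) (e + s)
    (fun E => (γ0 (4 + c * Mn - E)).im) ht0 hC.le (by positivity) (by linarith)
    (fun E hE => by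
      obtain ⟨r1, r2⟩ := hreg E hE
      exact ((le_abs_self _).trans (Complex.abs_im_le_norm _)).trans (hCE _ _ r1 r2 r1 r2).1)
    herr1 hpo (by linarith) (by linarith) (by linarith)
    (ContinuousOn.intervalIntegrable (hgc.mono (by
      rw [Set.uIcc_of_le (by linarith)]
      apply Set.Icc_subset_Icc <;> linarith))) N
  refine hfin.trans ?_
  obtain ⟨q, hq⟩ : ∃ q, q = c ^ (1 / 2500 : ℝ) := ⟨_, rfl⟩
  have hq0 : 0 < q := by rw [hq]; positivity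
  have m1 : c ^ (83 / 41 + 1 / 2400 : ℝ) ≤ 1 / 5 * (q * s) := by
    have h1 : c ^ (83 / 41 + 1 / 2400 : ℝ) =
        c ^ (1 / 60000 : ℝ) * (q * c ^ (83 / 41 : ℝ)) := by
      rw [hq, ← Real.rpow_add hc, ← Real.rpow_add hc]
      norm_num
    rw [h1]
    gcongr
  have m2 : c ^ (1 / 200 : ℝ) ≤ 1 / 5 * q := by
    have h1 : c ^ (1 / 200 : ℝ) ≤ c ^ (1 / 60000 + 1 / 2500 : ℝ) :=
      Real.rpow_le_rpow_of_exponent_ge hc hc1 (by norm_num)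
    rw [Real.rpow_add hc, ← hq] at h1
    refine h1.trans ?_
    gcongr
  have m3 : t / (κ / 8) ^ 2 ≤ 1 / 5 * q := by
    have h1 : t / (κ / 8) ^ 2 = 64 / κ ^ 2 * t := by
      field_simp
      norm_num
    have h2 : t ≤ c * (c ^ (1 / 60000 : ℝ) * q) := by
      rw [ht, hq]
      nth_rewrite 2 [← Real.rpow_one c]
      rw [← Real.rpow_add hc, ← Real.rpow_add hc]
      exact Real.rpow_le_rpow_of_exponent_ge hc hc1 (by norm_num)
    rw [h1]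
    calc 64 / κ ^ 2 * t ≤ 64 / κ ^ 2 * (c * (c ^ (1 / 60000 : ℝ) * q)) := by gcongr
      _ = (64 / κ ^ 2 * c) * (c ^ (1 / 60000 : ℝ) * q) := by ring
      _ ≤ 1 * (1 / 5 * q) := by gcongr
      _ = 1 / 5 * q := one_mul _
  have m4 : e + s - (e - s) = 2 * s := by ring
  rw [m4, ← hq]
  have m5 : 2 * s * (c ^ (1 / 200 : ℝ) + t / (κ / 8) ^ 2) ≤ 2 * s * (1 / 5 * q + 1 / 5 * q) := by
    gcongr
  calc _ ≤ 1 / 5 * (q * s) + 2 * s * (1 / 5 * q + 1 / 5 * q) := add_le_add (n1.trans m1) m5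
    _ = q * s := by ring

end Pool.Agent.X133.L2
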