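import Pool.Agent.TH794.LL2.Fin2
import Pool.Agent.TH794.LL2.Meas
import Pool.Agent.TH794.QE.FinA
import Pool.Agent.X133.GA.Cut

/-! From the resolvent at one scale in an interval of energies to the measures of the intervals. -/

set_option autoImplicit false
set_option linter.unusedSectionVars false

open scoped BigOperators Topology
open MeasureTheory Filter

namespace Pool.Agent.X133.L2

open Pool.Agent.TH794.LL2 (Po Po_int Po_im smooth_err Res)
open Pool.Agent.TH794.QE (Rs)
open Pool.Agent.H4R2.LO (Zd)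

/-- **the Ward identity** -/
theorem ward {d : ℕ} {V : Zd d → ℝ} {a : Zd d} {e η : ℝ} {u : Zd d → ℂ} (h : Rs d V a e η u) :
    η * ∑' x, ‖u x‖ ^ 2 = (u a).im := by
  have s1 : Summable fun x => (starRingEnd ℂ) (u x) * Pool.Agent.X133.GA.S u x :=
    Pool.Agent.X133.GA.summ_mul u _ h.sq (Pool.Agent.X133.GA.summ_S u h.sq)
  have s2 : Summable fun x => (starRingEnd ℂ) (Pool.Agent.X133.GA.S u x) * u x :=
    Pool.Agent.X133.GA.summ_mul _ u (Pool.Agent.X133.GA.summ_S u h.sq) h.sq
  have h1 := Pool.Agent.X133.GA.symm u u h.sq h.sq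
  obtain ⟨T, hT⟩ : ∃ T, T = ∑' x, (starRingEnd ℂ) (u x) * Pool.Agent.X133.GA.S u x := ⟨_, rfl⟩
  have h2 : (starRingEnd ℂ) T = T := by
    conv_rhs => rw [hT, h1]
    rw [hT, ← Complex.conjCLE_apply, Complex.conjCLE.map_tsum]
    refine tsum_congr fun x => ?_
    rw [Complex.conjCLE_apply, map_mul, Complex.conj_conj, mul_comm]
  have h3 : T.im = 0 := by
    have := congrArg Complex.im h2
    rw [Complex.conj_im] at this
    linarith
  have h4 : T.im = ∑' x, ((starRingEnd ℂ) (u x) * Pool.Agent.X133.GA.S u x).im := by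
    rw [hT]
    exact Complex.im_tsum s1
  have h5 : ∀ x, ((starRingEnd ℂ) (u x) * Pool.Agent.X133.GA.S u x).im =
      (if x = a then (u a).im else 0) - η * ‖u x‖ ^ 2 := by
    intro x
    have h6 : -Pool.Agent.X133.GA.S u x + (V x : ℂ) * u x - ((e : ℂ) + (η : ℂ) * Complex.I) * u x =
        if x = a then 1 else 0 := h.eq x
    have h7 : Pool.Agent.X133.GA.S u x = (V x : ℂ) * u x -
        ((e : ℂ) + (η : ℂ) * Complex.I) * u x - if x = a then 1 else 0 := by
      linear_combination -h6
    rw [h7]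
    have h8 : ‖u x‖ ^ 2 = (u x).re * (u x).re + (u x).im * (u x).im := by
      rw [← Complex.normSq_apply, Complex.normSq_eq_norm_sq]
    rw [h8]
    by_cases hx : x = a
    · rw [if_pos hx, if_pos hx, hx]
      simp [Complex.mul_im, Complex.mul_re]
      ring
    · rw [if_neg hx, if_neg hx]
      simp [Complex.mul_im, Complex.mul_re]
      ring
  rw [tsum_congr h5] at h4
  have s3 : Summable fun x : Zd d => (if x = a then (u a).im else 0 : ℝ) :=
    summable_of_finite_support ((Set.finite_singleton a).subset fun x hx => by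
      by_contra hne
      exact hx (if_neg hne))
  rw [s3.tsum_sub (h.sq.mul_left η), tsum_ite_eq, tsum_mul_left, h3] at h4
  linarith

/-- the smoothed measure of an interval, with a bound of the Poisson integral near the interval
only -/
theorem smooth_loc (m : Measure ℝ) [IsFiniteMeasure m] (hm1 : m.real Set.univ ≤ 1)
    (t C p0 ρ A B : ℝ) (ht : 0 < t) (hC : 0 ≤ C) (hρ : 0 < ρ) (htρ : t ≤ ρ / 2)
    (h : ∀ E : ℝ, |E - p0| ≤ 3 * ρ → Po m E t ≤ C)
    (hA : p0 - ρ ≤ A) (hAB : A ≤ B) (hB : B ≤ p0 + ρ) (N : ℕ) :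
    |m.real (Set.Icc A B) - Real.pi⁻¹ * ∫ E in A..B, Po m E t| ≤
      2 * ((N + 1) * (8 * C * t) + 2 * (1 / 2 : ℝ) ^ N) + (B - A) * (t / ρ ^ 2) := by
  have hπ := Real.pi_pos
  obtain ⟨J, hJ⟩ : ∃ J, J = Set.Icc (p0 - 2 * ρ) (p0 + 2 * ρ) := ⟨_, rfl⟩
  have hJm : MeasurableSet J := by rw [hJ]; exact measurableSet_Icc
  have hm'1 : (m.restrict J).real Set.univ ≤ 1 := by
    rw [measureReal_restrict_apply_univ]
    exact (measureReal_mono (Set.subset_univ _)).trans hm1
  have hb : ∀ E : ℝ, (m.restrict J).real (Set.Icc (E - t) (E + t)) ≤ (2 * C) * t := by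
    intro E
    rw [measureReal_restrict_apply measurableSet_Icc]
    rcases le_or_gt |E - p0| (3 * ρ) with hE | hE
    · have h1 := (Pool.Agent.W788.LD.Spec.poisson m E t ht).1
      rw [Po_im m E t ht] at h1
      have h2 := mul_le_mul_of_nonneg_left (h E hE) (show 0 ≤ 2 * t by linarith)
      have h3 : m.real (Set.Icc (E - t) (E + t) ∩ J) ≤ m.real (Set.Icc (E - t) (E + t)) :=
        measureReal_mono Set.inter_subset_left
      linarith
    · have h3 : Set.Icc (E - t) (E + t) ∩ J = ∅ := by
        rw [Set.eq_empty_iff_forall_notMem]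
        rintro x ⟨hx1, hx2⟩
        rw [hJ] at hx2
        have h4 : |E - p0| ≤ |E - x| + |x - p0| := abs_sub_le E x p0
        have h5 : |E - x| ≤ t := by
          rw [abs_le]
          constructor <;> linarith [hx1.1, hx1.2]
        have h6 : |x - p0| ≤ 2 * ρ := by
          rw [abs_le]
          constructor <;> linarith [hx2.1, hx2.2]
        linarith
      rw [h3, measureReal_empty]
      positivity
  have e1 := smooth_err (m.restrict J) hm'1 t (2 * C) A B ht hAB (by positivity) hb N
  have e2 : (m.restrict J).real (Set.Icc A B) = m.real (Set.Icc A B) := by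
    rw [measureReal_restrict_apply measurableSet_Icc, Set.inter_eq_left.2]
    rw [hJ]
    exact Set.Icc_subset_Icc (by linarith) (by linarith)
  rw [e2] at e1
  have hPi : ∀ (m : Measure ℝ) [IsFiniteMeasure m], Continuous fun E => Po m E t := by
    intro m _
    unfold Po
    apply continuous_of_dominated (bound := fun _ => t⁻¹)
    · intro E
      exact (Po_int m E t ht).aestronglyMeasurable
    · intro E
      refine Filter.Eventually.of_forall fun x => ?_
      rw [Real.norm_of_nonneg (by positivity), ← one_div, div_le_div_iff₀ (by positivity) ht]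
      nlinarith [sq_nonneg (x - E)]
    · exact integrable_const _
    · refine Filter.Eventually.of_forall fun x => ?_
      apply Continuous.div continuous_const (by fun_prop)
      intro E
      positivity
  have e3 : ∀ E ∈ Set.uIoc A B, ‖Po m E t - Po (m.restrict J) E t‖ ≤ t / ρ ^ 2 := by
    intro E hE
    rw [Set.uIoc_of_le hAB] at hE
    have h1 : Po m E t - Po (m.restrict J) E t =
        ∫ x in Jᶜ, t / ((x - E) ^ 2 + t ^ 2) ∂m := by
      unfold Po
      rw [← integral_add_compl hJm (Po_int m E t ht)]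
      ring
    have h0 : ∀ x ∈ Jᶜ, ρ ≤ |x - E| := by
      intro x hx
      by_contra hcon
      push Not at hcon
      apply hx
      rw [hJ]
      rw [abs_lt] at hcon
      constructor <;> linarith [hE.1, hE.2, hcon.1, hcon.2]
    rw [h1]
    have h2 : ‖∫ x in Jᶜ, t / ((x - E) ^ 2 + t ^ 2) ∂m‖ ≤ (t / ρ ^ 2) * m.real Jᶜ := by
      refine norm_setIntegral_le_of_norm_le_const (measure_lt_top m _) fun x hx => ?_
      rw [Real.norm_of_nonneg (by positivity)]
      apply div_le_div_of_nonneg_left ht.le (by positivity)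
      have h3 := h0 x hx
      have h4 : ρ ^ 2 ≤ |x - E| ^ 2 := pow_le_pow_left₀ hρ.le h3 2
      rw [sq_abs] at h4
      nlinarith [sq_nonneg t]
    refine h2.trans ?_
    have h3 : m.real Jᶜ ≤ 1 := (measureReal_mono (Set.subset_univ _)).trans hm1
    have h4 : 0 ≤ t / ρ ^ 2 := by positivity
    nlinarith
  have e4 : |Real.pi⁻¹ * (∫ E in A..B, Po m E t) -
      Real.pi⁻¹ * ∫ E in A..B, Po (m.restrict J) E t| ≤ (B - A) * (t / ρ ^ 2) := by
    rw [← mul_sub, ← intervalIntegral.integral_sub ((hPi m).intervalIntegrable _ _)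
      ((hPi (m.restrict J)).intervalIntegrable _ _), abs_mul, abs_of_pos (inv_pos.2 hπ)]
    have e5 := intervalIntegral.norm_integral_le_of_norm_le_const (a := A) (b := B)
      (f := fun E => Po m E t - Po (m.restrict J) E t) (C := t / ρ ^ 2) e3
    rw [abs_of_nonneg (by linarith : 0 ≤ B - A), Real.norm_eq_abs] at e5
    have hπ3 := Real.pi_gt_three
    rw [inv_mul_le_iff₀ hπ]
    have h6 : 0 ≤ (B - A) * (t / ρ ^ 2) := mul_nonneg (by linarith) (by positivity)
    nlinarith
  have e6 : 2 * ((N + 1 : ℝ) * (4 * (2 * C) * t) + 2 * (1 / 2 : ℝ) ^ N) =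
      2 * ((N + 1) * (8 * C * t) + 2 * (1 / 2 : ℝ) ^ N) := by ring
  rw [e6] at e1
  have f1 := abs_sub_le (m.real (Set.Icc A B)) (Real.pi⁻¹ * ∫ E in A..B, Po (m.restrict J) E t)
    (Real.pi⁻¹ * ∫ E in A..B, Po m E t)
  rw [abs_sub_comm (Real.pi⁻¹ * ∫ E in A..B, Po (m.restrict J) E t)] at f1
  linarith

/-- the comparison with a density -/
theorem dens_loc (m : Measure ℝ) [IsFiniteMeasure m] (hm1 : m.real Set.univ ≤ 1)
    (t C err p0 ρ A B : ℝ) (g : ℝ → ℝ) (ht : 0 < t) (hC : 0 ≤ C) (hρ : 0 < ρ) (htρ : t ≤ ρ / 2)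
    (hg : ∀ E : ℝ, |E - p0| ≤ 3 * ρ → g E ≤ C) (herr : err ≤ 1)
    (h : ∀ E : ℝ, |E - p0| ≤ 3 * ρ → |Po m E t - g E| ≤ err)
    (hA : p0 - ρ ≤ A) (hAB : A ≤ B) (hB : B ≤ p0 + ρ) (hgi : IntervalIntegrable g volume A B)
    (N : ℕ) :
    |m.real (Set.Icc A B) - Real.pi⁻¹ * ∫ E in A..B, g E| ≤
      2 * ((N + 1) * (8 * (C + 1) * t) + 2 * (1 / 2 : ℝ) ^ N) + (B - A) * (err + t / ρ ^ 2) := by
  have hπ := Real.pi_pos
  have h0 : 0 ≤ err := (abs_nonneg _).trans (h p0 (by rw [sub_self, abs_zero]; positivity))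
  have e1 := smooth_loc m hm1 t (C + 1) p0 ρ A B ht (by positivity) hρ htρ (fun E hE => by
    have h1 := (abs_le.1 (h E hE)).2
    have h2 := hg E hE
    linarith) hA hAB hB N
  have hPi : Continuous fun E => Po m E t := by
    unfold Po
    apply continuous_of_dominated (bound := fun _ => t⁻¹)
    · intro E
      exact (Po_int m E t ht).aestronglyMeasurable
    · intro E
      refine Filter.Eventually.of_forall fun x => ?_
      rw [Real.norm_of_nonneg (by positivity), ← one_div, div_le_div_iff₀ (by positivity) ht]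
      nlinarith [sq_nonneg (x - E)]
    · exact integrable_const _
    · refine Filter.Eventually.of_forall fun x => ?_
      apply Continuous.div continuous_const (by fun_prop)
      intro E
      positivity
  have e4 : |Real.pi⁻¹ * (∫ E in A..B, Po m E t) - Real.pi⁻¹ * ∫ E in A..B, g E| ≤
      (B - A) * err := by
    rw [← mul_sub, ← intervalIntegral.integral_sub (hPi.intervalIntegrable _ _) hgi,
      abs_mul, abs_of_pos (inv_pos.2 hπ)]
    have e5 := intervalIntegral.norm_integral_le_of_norm_le_const (a := A) (b := B)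
      (f := fun E => Po m E t - g E) (C := err) (fun E hE => by
        rw [Set.uIoc_of_le hAB] at hE
        rw [Real.norm_eq_abs]
        apply h
        rw [abs_le]
        constructor <;> linarith [hE.1, hE.2])
    rw [abs_of_nonneg (by linarith : 0 ≤ B - A), Real.norm_eq_abs] at e5
    have hπ3 := Real.pi_gt_three
    rw [inv_mul_le_iff₀ hπ]
    have h6 : 0 ≤ (B - A) * err := mul_nonneg (by linarith) h0
    nlinarith
  have f1 := abs_sub_le (m.real (Set.Icc A B)) (Real.pi⁻¹ * ∫ E in A..B, Po m E t)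
    (Real.pi⁻¹ * ∫ E in A..B, g E)
  have e6 : (B - A) * (err + t / ρ ^ 2) = (B - A) * (t / ρ ^ 2) + (B - A) * err := by ring
  rw [e6]
  linarith

end Pool.Agent.X133.L2
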