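import Pool.Agent.X133.L2.Law
import Pool.Agent.W788.BK.Unif
import Pool.Agent.W788.LD.Uni

/-! The uniform law. -/

set_option autoImplicit false

open scoped BigOperators Topology
open MeasureTheory Filter Set

namespace Pool.Agent.X133.L2

open Pool.Agent.W788.LD.Uni (unif unif_prob unif_bdd)

theorem unif_int (f : ℝ → ℝ) : ∫ s, f s ∂(unif 1) = 1 / 2 * ∫ s in (-1 : ℝ)..1, f s := by
  unfold unif
  rw [integral_smul_measure, intervalIntegral.integral_of_le (by norm_num), ← integral_Icc_eq_integral_Ioc,
    ENNReal.toReal_ofReal (by norm_num), smul_eq_mul]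
  norm_num

theorem unif_mean : ∫ s, s ∂(unif 1) = 0 := by
  rw [unif_int, integral_id]
  norm_num

theorem unif_var : ∫ s, (s - 0) ^ 2 ∂(unif 1) = 1 / 3 := by
  rw [unif_int]
  simp only [sub_zero]
  rw [integral_pow]
  norm_num

end Pool.Agent.X133.L2
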